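import Mathlib

set_option autoImplicit false

/-!
Lemma (A) for the disproof of MP_b38f68 (helper70's construction): a Boolean function that is affine
on all cosets of a subgroup `C` with `|C|^2 = 2^n`, with slopes which separate the cosets, is bent.
-/

namespace Pool.Agent.Helper52.Bent

/-- The sign `(-1)^z`. -/
def chi (z : ZMod 2) : ℤ := (-1) ^ z.val

lemma chi_add (a b : ZMod 2) : chi (a + b) = chi a * chi b := by
  revert a b; decide

lemma chi_zero : chi 0 = 1 := by decide

lemma chi_one : chi 1 = -1 := by decide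

lemma chi_mul_self (a : ZMod 2) : chi a * chi a = 1 := by
  revert a; decide

lemma eq_one_of_ne_zero {a : ZMod 2} (h : a ≠ 0) : a = 1 := by
  revert a; decide

/-- Character sum over a finite group: zero unless the additive map vanishes. -/
lemma sum_chi_eq_zero {G : Type*} [AddCommGroup G] [Fintype G] (ψ : G → ZMod 2)
    (hψ : ∀ a b, ψ (a + b) = ψ a + ψ b) (g : G) (hg : ψ g ≠ 0) :
    ∑ x : G, chi (ψ x) = 0 := by
  have h1 : ∑ x : G, chi (ψ x) = ∑ x : G, chi (ψ (x + g)) :=
    (Equiv.sum_comp (Equiv.addRight g) (fun x => chi (ψ x))).symm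
  have h2 : ∑ x : G, chi (ψ (x + g)) = - ∑ x : G, chi (ψ x) := by
    rw [← Finset.sum_neg_distrib]
    refine Finset.sum_congr rfl fun x _ => ?_
    rw [hψ, eq_one_of_ne_zero hg, chi_add, chi_one]
    ring
  linarith

/-- The Walsh sum at `a`. -/
def walsh {n : ℕ} (f : (Fin n → ZMod 2) → ZMod 2) (a : Fin n → ZMod 2) : ℤ :=
  ∑ x : Fin n → ZMod 2, chi (f x + ∑ i, a i * x i)

lemma dot_add {n : ℕ} (a x y : Fin n → ZMod 2) :
    ∑ i, a i * (x + y) i = ∑ i, a i * x i + ∑ i, a i * y i := by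
  rw [← Finset.sum_add_distrib]
  refine Finset.sum_congr rfl fun i _ => ?_
  rw [Pi.add_apply, mul_add]

/-- Parseval. -/
lemma parseval {n : ℕ} (f : (Fin n → ZMod 2) → ZMod 2) :
    ∑ a : Fin n → ZMod 2, walsh f a ^ 2 = (2 : ℤ) ^ n * 2 ^ n := by
  classical
  have hcard : (Fintype.card (Fin n → ZMod 2) : ℤ) = 2 ^ n := by
    rw [Fintype.card_fun, ZMod.card, Fintype.card_fin]; push_cast; rfl
  have h1 : ∀ a : Fin n → ZMod 2, walsh f a ^ 2 =
      ∑ x : Fin n → ZMod 2, ∑ y : Fin n → ZMod 2,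
        chi (f x) * chi (f y) * chi (∑ i, a i * (x + y) i) := by
    intro a
    rw [pow_two, walsh, Finset.sum_mul_sum]
    refine Finset.sum_congr rfl fun x _ => Finset.sum_congr rfl fun y _ => ?_
    rw [dot_add, chi_add, chi_add, chi_add]
    ring
  have h2 : ∀ x y : Fin n → ZMod 2, ∑ a : Fin n → ZMod 2, chi (∑ i, a i * (x + y) i) =
      if x = y then (2 : ℤ) ^ n else 0 := by
    intro x y
    split_ifs with h
    · subst h
      have : ∀ a : Fin n → ZMod 2, chi (∑ i, a i * (x + x) i) = 1 := by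
        intro a
        have hz : ∀ i, (x + x) i = 0 := by
          intro i
          rw [Pi.add_apply]
          exact CharTwo.add_self_eq_zero (x i)
        simp [hz, chi_zero]
      rw [Finset.sum_congr rfl (fun a _ => this a), Finset.sum_const, Finset.card_univ, ← hcard]
      simp
    · obtain ⟨i, hi⟩ := Function.ne_iff.mp h
      refine sum_chi_eq_zero (fun a : Fin n → ZMod 2 => ∑ i, a i * (x + y) i) ?_
        (Pi.single i 1) ?_
      · intro a b
        rw [← Finset.sum_add_distrib]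
        refine Finset.sum_congr rfl fun j _ => ?_
        rw [Pi.add_apply, add_mul]
      · have : ∑ j, (Pi.single i 1 : Fin n → ZMod 2) j * (x + y) j = x i + y i := by
          rw [Finset.sum_eq_single i]
          · simp
          · intro j _ hj
            rw [Pi.single_eq_of_ne hj, zero_mul]
          · intro h; exact absurd (Finset.mem_univ i) h
        show ∑ j, (Pi.single i 1 : Fin n → ZMod 2) j * (x + y) j ≠ 0
        rw [this]
        intro h0
        apply hi
        have := CharTwo.add_eq_zero.mp h0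
        exact this
  calc ∑ a : Fin n → ZMod 2, walsh f a ^ 2
      = ∑ a : Fin n → ZMod 2, ∑ x : Fin n → ZMod 2, ∑ y : Fin n → ZMod 2,
        chi (f x) * chi (f y) * chi (∑ i, a i * (x + y) i) :=
        Finset.sum_congr rfl fun a _ => h1 a
    _ = ∑ x : Fin n → ZMod 2, ∑ y : Fin n → ZMod 2, ∑ a : Fin n → ZMod 2,
        chi (f x) * chi (f y) * chi (∑ i, a i * (x + y) i) := by
        rw [Finset.sum_comm]
        refine Finset.sum_congr rfl fun x _ => ?_
        rw [Finset.sum_comm]
    _ = ∑ x : Fin n → ZMod 2, ∑ y : Fin n → ZMod 2,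
        chi (f x) * chi (f y) * (if x = y then (2 : ℤ) ^ n else 0) := by
        refine Finset.sum_congr rfl fun x _ => Finset.sum_congr rfl fun y _ => ?_
        rw [← Finset.mul_sum, h2]
    _ = ∑ x : Fin n → ZMod 2, (2 : ℤ) ^ n := by
        refine Finset.sum_congr rfl fun x _ => ?_
        rw [Finset.sum_eq_single x]
        · rw [if_pos rfl, chi_mul_self, one_mul]
        · intro y _ hy
          rw [if_neg (Ne.symm hy), mul_zero]
        · intro h; exact absurd (Finset.mem_univ x) h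
    _ = (2 : ℤ) ^ n * 2 ^ n := by
        rw [Finset.sum_const, Finset.card_univ, nsmul_eq_mul, hcard]

/-- Lemma (A), first half: the Walsh coefficients are `0` or `± 2^(n/2)`. -/
theorem walsh_sq_or {n : ℕ} (f : (Fin n → ZMod 2) → ZMod 2)
    (C : AddSubgroup (Fin n → ZMod 2)) (hC : Nat.card C ^ 2 = 2 ^ n)
    (π : (Fin n → ZMod 2) → (Fin n → ZMod 2) → ZMod 2)
    (h1 : ∀ x, ∀ c ∈ C, f (x + c) = f x + π x c)
    (h2 : ∀ x, ∀ c ∈ C, ∀ c' ∈ C, π x (c + c') = π x c + π x c')
    (h3 : ∀ x y, (∀ c ∈ C, π x c = π y c) → x - y ∈ C)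
    (a : Fin n → ZMod 2) : walsh f a ^ 2 = 0 ∨ walsh f a ^ 2 = (2 : ℤ) ^ n := by
  classical
  -- the slope depends only on the coset
  have hcos : ∀ x, ∀ c ∈ C, ∀ c' ∈ C, π (x + c) c' = π x c' := by
    intro x c hc c' hc'
    have e1 := h1 (x + c) c' hc'
    have e2 := h1 x (c + c') (C.add_mem hc hc')
    rw [add_assoc, e2, h1 x c hc, h2 x c hc c' hc'] at e1
    have e3 : f x + π x c + π x c' = f x + π x c + π (x + c) c' := by
      rw [← e1]; ring
    exact (add_left_cancel e3).symm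
  set X : Finset (Fin n → ZMod 2) :=
    Finset.univ.filter (fun x => ∀ c ∈ C, π x c = ∑ i, a i * c i) with hX
  have hCpos : (0 : ℤ) < (Nat.card C : ℤ) := by
    have : 0 < Nat.card C := Nat.card_pos
    exact_mod_cast this
  -- average over C
  have havg : (Nat.card C : ℤ) * walsh f a =
      (Nat.card C : ℤ) * ∑ x ∈ X, chi (f x + ∑ i, a i * x i) := by
    have e1 : (Nat.card C : ℤ) * walsh f a =
        ∑ c : C, ∑ x : Fin n → ZMod 2, chi (f (x + c) + ∑ i, a i * (x + (c : Fin n → ZMod 2)) i) := by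
      have : ∀ c : C, ∑ x : Fin n → ZMod 2,
          chi (f (x + c) + ∑ i, a i * (x + (c : Fin n → ZMod 2)) i) = walsh f a := by
        intro c
        exact Equiv.sum_comp (Equiv.addRight (c : Fin n → ZMod 2))
          (fun x => chi (f x + ∑ i, a i * x i))
      rw [Finset.sum_congr rfl (fun c _ => this c), Finset.sum_const, Finset.card_univ,
        nsmul_eq_mul, Nat.card_eq_fintype_card]
    rw [e1, Finset.sum_comm, Finset.mul_sum, ← Finset.sum_subset (Finset.subset_univ X)]
    · refine Finset.sum_congr rfl fun x hx => ?_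
      have hx' := (Finset.mem_filter.mp hx).2
      have : ∀ c : C, chi (f (x + c) + ∑ i, a i * (x + (c : Fin n → ZMod 2)) i) =
          chi (f x + ∑ i, a i * x i) := by
        intro c
        rw [h1 x c c.2, dot_add, hx' c c.2]
        have : f x + ∑ i, a i * (c : Fin n → ZMod 2) i +
            (∑ i, a i * x i + ∑ i, a i * (c : Fin n → ZMod 2) i) =
            (f x + ∑ i, a i * x i) +
            (∑ i, a i * (c : Fin n → ZMod 2) i + ∑ i, a i * (c : Fin n → ZMod 2) i) := by ring
        rw [this, CharTwo.add_self_eq_zero, add_zero]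
      rw [Finset.sum_congr rfl (fun c _ => this c), Finset.sum_const, Finset.card_univ,
        nsmul_eq_mul, Nat.card_eq_fintype_card]
    · intro x _ hx
      have hx' : ∃ c ∈ C, π x c ≠ ∑ i, a i * c i := by
        by_contra hcon
        apply hx
        rw [hX, Finset.mem_filter]
        refine ⟨Finset.mem_univ _, fun c hc => ?_⟩
        by_contra hne
        exact hcon ⟨c, hc, hne⟩
      obtain ⟨c0, hc0, hne⟩ := hx'
      have hsum : ∑ c : C, chi (π x c + ∑ i, a i * (c : Fin n → ZMod 2) i) = 0 := by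
        refine sum_chi_eq_zero
          (fun c : C => π x c + ∑ i, a i * (c : Fin n → ZMod 2) i) ?_ ⟨c0, hc0⟩ ?_
        · intro c c'
          show π x ((c : Fin n → ZMod 2) + c') + ∑ i, a i * ((c : Fin n → ZMod 2) + c') i =
            (π x c + ∑ i, a i * (c : Fin n → ZMod 2) i) +
            (π x c' + ∑ i, a i * (c' : Fin n → ZMod 2) i)
          rw [h2 x c c.2 c' c'.2, dot_add]
          ring
        · show π x c0 + ∑ i, a i * c0 i ≠ 0
          intro h0
          exact hne (CharTwo.add_eq_zero.mp h0)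
      have : ∀ c : C, chi (f (x + c) + ∑ i, a i * (x + (c : Fin n → ZMod 2)) i) =
          chi (f x + ∑ i, a i * x i) * chi (π x c + ∑ i, a i * (c : Fin n → ZMod 2) i) := by
        intro c
        rw [h1 x c c.2, dot_add, ← chi_add]
        congr 1
        ring
      rw [Finset.sum_congr rfl (fun c _ => this c), ← Finset.mul_sum, hsum, mul_zero]
  have hW : walsh f a = ∑ x ∈ X, chi (f x + ∑ i, a i * x i) :=
    mul_left_cancel₀ (ne_of_gt hCpos) havg
  have hcardC : ((Nat.card C : ℤ)) ^ 2 = 2 ^ n := by exact_mod_cast hC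
  by_cases hne : X.Nonempty
  · obtain ⟨x0, hx0⟩ := hne
    have hx0' := (Finset.mem_filter.mp hx0).2
    have hconst : ∀ x ∈ X, chi (f x + ∑ i, a i * x i) = chi (f x0 + ∑ i, a i * x0 i) := by
      intro x hx
      have hx' := (Finset.mem_filter.mp hx).2
      have hmem : x - x0 ∈ C := h3 x x0 (fun c hc => by rw [hx' c hc, hx0' c hc])
      obtain ⟨c, hc, rfl⟩ : ∃ c ∈ C, x = x0 + c := ⟨x - x0, hmem, by abel⟩
      rw [h1 x0 c hc, dot_add, hx0' c hc]
      have : f x0 + ∑ i, a i * c i + (∑ i, a i * x0 i + ∑ i, a i * c i) =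
          (f x0 + ∑ i, a i * x0 i) + (∑ i, a i * c i + ∑ i, a i * c i) := by ring
      rw [this, CharTwo.add_self_eq_zero, add_zero]
    have hXcard : X.card = Nat.card C := by
      rw [Nat.card_eq_fintype_card, ← Finset.card_univ (α := C)]
      symm
      refine Finset.card_bij (fun (c : C) _ => x0 + (c : Fin n → ZMod 2)) ?_ ?_ ?_
      · intro c _
        rw [hX, Finset.mem_filter]
        refine ⟨Finset.mem_univ _, fun c' hc' => ?_⟩
        rw [hcos x0 c c.2 c' hc', hx0' c' hc']
      · intro c _ c' _ h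
        exact Subtype.ext (add_left_cancel h)
      · intro x hx
        have hx' := (Finset.mem_filter.mp hx).2
        have hmem : x - x0 ∈ C := h3 x x0 (fun c hc => by rw [hx' c hc, hx0' c hc])
        exact ⟨⟨x - x0, hmem⟩, Finset.mem_univ _, by
          show x0 + (x - x0) = x
          abel⟩
    right
    rw [hW, Finset.sum_congr rfl hconst, Finset.sum_const, nsmul_eq_mul, hXcard, mul_pow, hcardC,
      pow_two (chi _), chi_mul_self, mul_one]
  · left
    rw [hW, Finset.not_nonempty_iff_eq_empty.mp hne, Finset.sum_empty]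
    norm_num

/-- If all squares of Walsh coefficients are `0` or `2^n`, all are `2^n`. -/
theorem walsh_sq_of_or {n : ℕ} (f : (Fin n → ZMod 2) → ZMod 2)
    (h : ∀ a, walsh f a ^ 2 = 0 ∨ walsh f a ^ 2 = (2 : ℤ) ^ n) (a : Fin n → ZMod 2) :
    walsh f a ^ 2 = (2 : ℤ) ^ n := by
  have hcard : (Fintype.card (Fin n → ZMod 2) : ℤ) = 2 ^ n := by
    rw [Fintype.card_fun, ZMod.card, Fintype.card_fin]; push_cast; rfl
  have hle : ∀ b ∈ (Finset.univ : Finset (Fin n → ZMod 2)), walsh f b ^ 2 ≤ (2 : ℤ) ^ n := by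
    intro b _
    rcases h b with h0 | h0
    · rw [h0]; positivity
    · rw [h0]
  have hsum : ∑ b : Fin n → ZMod 2, walsh f b ^ 2 = ∑ b : Fin n → ZMod 2, (2 : ℤ) ^ n := by
    rw [parseval, Finset.sum_const, Finset.card_univ, nsmul_eq_mul, hcard]
  exact (Finset.sum_eq_sum_iff_of_le hle).mp hsum a (Finset.mem_univ a)

/-- Lemma (A). A function which is affine on the cosets of `C`, `|C|^2 = 2^n`, with slopes that
separate the cosets, is bent. -/
theorem walsh_sq {n : ℕ} (f : (Fin n → ZMod 2) → ZMod 2)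
    (C : AddSubgroup (Fin n → ZMod 2)) (hC : Nat.card C ^ 2 = 2 ^ n)
    (π : (Fin n → ZMod 2) → (Fin n → ZMod 2) → ZMod 2)
    (h1 : ∀ x, ∀ c ∈ C, f (x + c) = f x + π x c)
    (h2 : ∀ x, ∀ c ∈ C, ∀ c' ∈ C, π x (c + c') = π x c + π x c')
    (h3 : ∀ x y, (∀ c ∈ C, π x c = π y c) → x - y ∈ C)
    (a : Fin n → ZMod 2) : walsh f a ^ 2 = (2 : ℤ) ^ n :=
  walsh_sq_of_or f (walsh_sq_or f C hC π h1 h2 h3) a

/-- Lemma (A) in the words of the frozen statement. -/
theorem bent_of_slopes {n : ℕ} (f : (Fin n → ZMod 2) → ZMod 2)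
    (C : AddSubgroup (Fin n → ZMod 2)) (hC : Nat.card C ^ 2 = 2 ^ n)
    (π : (Fin n → ZMod 2) → (Fin n → ZMod 2) → ZMod 2)
    (h1 : ∀ x, ∀ c ∈ C, f (x + c) = f x + π x c)
    (h2 : ∀ x, ∀ c ∈ C, ∀ c' ∈ C, π x (c + c') = π x c + π x c')
    (h3 : ∀ x y, (∀ c ∈ C, π x c = π y c) → x - y ∈ C)
    (a : Fin n → ZMod 2) :
    (∑ x : Fin n → ZMod 2, (-1 : ℤ) ^ (f x + ∑ i, a i * x i).val) ^ 2 = (2 : ℤ) ^ n :=
  walsh_sq f C hC π h1 h2 h3 a

/-- Version with an abstract space `V` in the place of `Fin n → ZMod 2` : `g : V → ZMod 2`,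
`e : (Fin n → ZMod 2) ≃+ V`, and `f = g ∘ e`. -/
theorem bent_of_slopes_equiv {n : ℕ} {V : Type*} [AddCommGroup V]
    (e : (Fin n → ZMod 2) ≃+ V) (g : V → ZMod 2)
    (C : AddSubgroup V) (hC : Nat.card C ^ 2 = 2 ^ n)
    (π : V → V → ZMod 2)
    (h1 : ∀ x, ∀ c ∈ C, g (x + c) = g x + π x c)
    (h2 : ∀ x, ∀ c ∈ C, ∀ c' ∈ C, π x (c + c') = π x c + π x c')
    (h3 : ∀ x y, (∀ c ∈ C, π x c = π y c) → x - y ∈ C)
    (a : Fin n → ZMod 2) :
    (∑ x : Fin n → ZMod 2, (-1 : ℤ) ^ (g (e x) + ∑ i, a i * x i).val) ^ 2 = (2 : ℤ) ^ n := by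
  have hcard : Nat.card (C.comap e.toAddMonoidHom) = Nat.card C := by
    refine Nat.card_congr ⟨fun c => ⟨e c, c.2⟩, fun c => ⟨e.symm c, ?_⟩, ?_, ?_⟩
    · show e (e.symm c) ∈ C
      rw [e.apply_symm_apply]
      exact c.2
    · intro c
      exact Subtype.ext (e.symm_apply_apply _)
    · intro c
      exact Subtype.ext (e.apply_symm_apply _)
  refine bent_of_slopes (fun x => g (e x)) (C.comap e.toAddMonoidHom) (by rw [hcard, hC])
    (fun x c => π (e x) (e c)) ?_ ?_ ?_ a
  · intro x c hc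
    show g (e (x + c)) = g (e x) + π (e x) (e c)
    rw [map_add]
    exact h1 (e x) (e c) hc
  · intro x c hc c' hc'
    show π (e x) (e (c + c')) = π (e x) (e c) + π (e x) (e c')
    rw [map_add]
    exact h2 (e x) (e c) hc (e c') hc'
  · intro x y h
    show e (x - y) ∈ C
    rw [map_sub]
    refine h3 (e x) (e y) fun c hc => ?_
    have := h (e.symm c) (by
      show e (e.symm c) ∈ C
      rw [e.apply_symm_apply]
      exact hc)
    simpa using this

end Pool.Agent.Helper52.Bent
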